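import Pool.Agent.H27.L1.H34.GZ.Targets2

/-!
Targets of the board gz: the Hilbert-Schmidt norm in the cusp and the mass of cusp forms
(page H34_GZ.md, sections 4 and 5).
-/

namespace Pool.Agent.H27.L1.H34.GZ

open MeasureTheory Pool.Agent.H27.L1.H34.GM

/-! ### auxiliary objects -/

/-- the composed kernel -/
noncomputable def PPz {m q : ℕ} [NeZero q] (D : Set (V m)) (y : ℝ) (g : Mat m) (x : RM m q)
    (k : Mat m) (z : RM m q) : ENNReal :=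
  ∫⁻ h in D, ∑ w : RM m q, Pz y g x (mt h) w * Pz y (mt h) w k z ∂(hm m)

/-- the energy at `g` -/
noncomputable def Ez {m : ℕ} (q : ℕ) [NeZero q] (D : Set (V m)) (y : ℝ) (g : Mat m) : ENNReal :=
  ∑ x : RM m q, ∫⁻ k in D, ∑ z : RM m q, (PPz D y g x (mt k) z) ^ 2 ∂(hm m)

open Classical in
/-- the kernel of the operator `opCz` -/
noncomputable def Cz {m q : ℕ} (Φ : Mat m → ℂ) (y : ℝ) (g : Mat m) (x : RM m q) (h : Mat m)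
    (w : RM m q) : ℂ :=
  ∑' α : ZM m, if cQ q α * x = w ∧ IsUnit w ∧ y / 2 < (α.det.natAbs : ℝ) ∧
    (α.det.natAbs : ℝ) ≤ y then Φ (kk (aN (cR α)) h (cR α) g) else 0

/-- bounded matrices with bounded inverse -/
def Zc (m : ℕ) (c : ℝ) : Set (V m) := {z | sz (mt z) ≤ c ∧ c⁻¹ ≤ |(mt z).det|}

/-! ### section 4 -/

/-- Siegel reduced bases of the sublattices exist -/
def T_SEX : Prop := ∀ (m : ℕ) (b : Mat m), b.det ≠ 0 →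
  ∃ (sel : AddSubgroup (Fin m → ℤ) → ZM m) (vs : AddSubgroup (Fin m → ℤ) → Fin m → ℝ), Sel b sel vs

/-- measurability of `DY` -/
def T_DYM : Prop := ∀ (m : ℕ) (D : Set (V m)), DomZ m D → ∀ Y : ℝ, MeasurableSet (DY D Y)

open Classical in
/-- the kernels have bounded mass on the shell -/
def T_SHB : Prop := ∀ (m : ℕ) (c : ℝ), 1 ≤ m → 0 < c → ∃ C : ℝ, 0 < C ∧ ∀ α g : Mat m,
  α.det ≠ 0 → g.det ≠ 0 →
    ∫⁻ z in Shell m, (if sz (kk (aN α) (mt z) α g) ≤ c then (1 : ENNReal) else 0) ∂(hm m) ≤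
      ENNReal.ofReal C

open Classical in
/-- unfolding of a sum over the non singular integer matrices: the row lattices -/
def T_UNL : Prop := ∀ (m : ℕ) (D : Set (V m)), 1 ≤ m → DomZ m D →
  ∀ sel : AddSubgroup (Fin m → ℤ) → ZM m,
  (∀ L, L.index ≠ 0 → (sel L).det ≠ 0 ∧ AddSubgroup.closure (Set.range (sel L)) = L) →
  ∀ G : ZM m → V m → ENNReal, (∀ γ, Measurable (G γ)) →
  (∀ (c γ : ZM m) (z : V m), IsUnit c → (mt z).det ≠ 0 →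
    G (c * γ) (fun i j => (cR c * mt z) i j) = G γ z) →
    ∫⁻ z in D, ∑' γ : ZM m, (if γ.det ≠ 0 then G γ z else 0) ∂(hm m) =
      ∑' L : AddSubgroup (Fin m → ℤ), if L.index ≠ 0 then ∫⁻ z in Shell m, G (sel L) z ∂(hm m)
        else 0

/-- composition of two kernels -/
def T_H1Z : Prop := ∀ m : ℕ, 1 ≤ m → ∃ C : ℝ, 0 < C ∧
  ∀ (q : ℕ) [NeZero q] (D : Set (V m)), 1 ≤ q → DomZ m D → ∀ y : ℝ, 0 < y →
  ∀ (g k : Mat m) (x z : RM m q), g.det ≠ 0 → k.det ≠ 0 →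
    PPz D y g x k z ≤ ENNReal.ofReal C * Kz y g x k z

/-- two matrices which are seen by the kernel at the same points have comparable rows -/
def T_CLO : Prop := ∀ m : ℕ, 1 ≤ m → ∃ C : ℝ, 0 < C ∧ ∀ (γ γ' : ZM m) (b h : Mat m) (y : ℝ),
  b.det ≠ 0 → h.det ≠ 0 → 0 < y →
  y ^ 2 / 4 < (γ.det.natAbs : ℝ) → (γ.det.natAbs : ℝ) ≤ y ^ 2 →
  y ^ 2 / 4 < (γ'.det.natAbs : ℝ) → (γ'.det.natAbs : ℝ) ≤ y ^ 2 →
  sz (kk (aN (cR γ)) h (cR γ) b) ≤ 4 * m → sz (kk (aN (cR γ')) h (cR γ') b) ≤ 4 * m →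
    ∀ i, rowN (vb (γ' i) b) ≤ C * rowN (vb (γ i) b)

/-- number of the matrices in a residue class with bounded rows -/
def T_CNQ : Prop := ∀ (m : ℕ) (B : ℝ), 0 < B → ∃ C0 : ℝ, 0 ≤ C0 ∧ ∀ (q : ℕ) [NeZero q]
  (b n : Mat m) (a : Fin m → ℝ) (k : Mat m), 1 ≤ q → Sgl b n a k → ∀ (γ : ZM m) (v : Fin m → ℝ),
  (∀ i, rowN (vb (γ i) b) ≤ v i) →
    {γ' : ZM m | cQ q γ' = cQ q γ ∧ ∀ i, rowN (vb (γ' i) b) ≤ B * rowN (vb (γ i) b)}.Finite ∧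
    ({γ' : ZM m | cQ q γ' = cQ q γ ∧
      ∀ i, rowN (vb (γ' i) b) ≤ B * rowN (vb (γ i) b)}.ncard : ℝ) ≤
      ∏ i, ∏ j, (1 + C0 * v i / (q * a j))

open Classical in
/-- the square of the composed kernel -/
def T_H2Z : Prop := ∀ m : ℕ, 1 ≤ m → ∃ C C0 : ℝ, 0 < C ∧ 0 ≤ C0 ∧
  ∀ (q : ℕ) [NeZero q] (D : Set (V m)), 1 ≤ q → DomZ m D → ∀ y : ℝ, 0 < y →
  ∀ (b n : Mat m) (a : Fin m → ℝ) (k : Mat m), Sgl b n a k →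
  ∀ (sel : AddSubgroup (Fin m → ℤ) → ZM m) (vs : AddSubgroup (Fin m → ℤ) → Fin m → ℝ),
  Sel b sel vs → ∀ x : RM m q, IsUnit x →
    ∫⁻ h in D, ∑ z : RM m q, (Kz y b x (mt h) z) ^ 2 ∂(hm m) ≤
      ENNReal.ofReal C * ∑' L : AddSubgroup (Fin m → ℤ),
        (if y ^ 2 / 4 < (L.index : ℝ) ∧ (L.index : ℝ) ≤ y ^ 2 then
          (NL (sel L) : ENNReal) ^ 2 * ENNReal.ofReal (∏ i, ∏ j, (1 + C0 * vs L i / (q * a j)))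
            else 0)

/-- invariance of the energy -/
def T_EIN : Prop := ∀ (m q : ℕ) [NeZero q] (D : Set (V m)) (y : ℝ) (γ : ZM m) (g : Mat m),
  1 ≤ m → 1 ≤ q → IsUnit γ → Ez q D y (cR γ * g) = Ez q D y g

/-- the energy on `DY` -/
def T_ENZ : Prop := ∀ m : ℕ, 1 ≤ m → ∃ (C : ℝ) (K : ℕ), 0 < C ∧
  ∀ (q : ℕ) [NeZero q] (D : Set (V m)), 1 ≤ q → DomZ m D → ∀ y Y : ℝ, 1 ≤ y → 2 ≤ Y →
    ∫⁻ g in DY D Y, Ez q D y (mt g) ∂(hm m) ≤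
      ENNReal.ofReal (C * (q : ℝ) ^ (m ^ 2) * (1 + Real.log (y * Y)) ^ K * y ^ (2 * m) *
        (1 + y ^ 2 / (q : ℝ) ^ m) ^ m)

/-- the kernel of one operator is integrable over the domain -/
def T_FCZ : Prop := ∀ (m q : ℕ) [NeZero q] (T : ℕ → Finset (ZM m)) (D : Set (V m)),
  SysZ m q T D → ∀ (y : ℝ) (g : Mat m) (x : RM m q), g.det ≠ 0 →
    ∫⁻ h in D, ∑ w : RM m q, Pz y g x (mt h) w ∂(hm m) < ⊤

/-- measurability of the kernels -/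
def T_MKZ : Prop := ∀ (m q : ℕ) (y : ℝ) (x w : RM m q), 1 ≤ m →
  Measurable (fun p : V m × V m => Pz y (mt p.1) x (mt p.2) w) ∧
  ∀ Φ : Mat m → ℂ, Tst m Φ →
    Measurable (fun p : V m × V m => Cz Φ y (mt p.1) x (mt p.2) w)

open Classical in
/-- the operator as an integral operator, and its majorant -/
def T_CKZ : Prop := ∀ (m q : ℕ) [NeZero q] (χ : ℝ → ℝ) (δ : ℝ), 1 ≤ m → 1 ≤ q → Prof χ →
  0 < δ → δ ≤ 1 / 2 → ∀ y : ℝ,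
    (∀ (g h : Mat m) (x w : RM m q),
      ENNReal.ofReal ‖Cz (bump m χ δ) y g x h w‖ ≤ Pz y g x h w) ∧
    ∀ (F : RM m q → ℂ), (∀ x, ¬ IsUnit x → F x = 0) → ∀ (g h : Mat m) (x : RM m q),
      g.det ≠ 0 → h.det ≠ 0 →
      ∑' α : ZM m, (if y / 2 < (α.det.natAbs : ℝ) ∧ (α.det.natAbs : ℝ) ≤ y then
        bump m χ δ (kk (aN (cR α)) h (cR α) g) * F (cQ q α * x) else 0) =
      ∑ w : RM m q, Cz (bump m χ δ) y g x h w * F w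

/-- cusp forms are eigenfunctions of `opCz` -/
def T_OCZ : Prop := ∀ (m q : ℕ) [NeZero q] (T : ℕ → Finset (ZM m)) (D : Set (V m)),
  SysZ m q T D → ∀ (F : Mat m → RM m q → ℂ) (lam : ℕ → ℂ) (mu : Fin m → ℂ),
  EigZ m q T F lam mu → ∀ Φ : Mat m → ℂ, Tst m Φ → ∀ (y : ℝ) (g : Mat m) (x : RM m q),
  g.det ≠ 0 → opCz q Φ y D F g x = th1 Φ mu 1 * DF m q lam y * F g x

/-- lower bound for the local transform at one -/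
def T_TLB : Prop := ∀ (m : ℕ) (χ : ℝ → ℝ), 1 ≤ m → Prof χ → ∃ c c1 : ℝ, 0 < c ∧ 0 < c1 ∧
  ∀ (mu : Fin m → ℂ) (δ : ℝ), 0 < δ → δ ≤ 1 / 2 → ∑ j, mu j = 0 → δ * (1 + ∑ j, ‖mu j‖) ≤ c →
    c1 * δ ^ (m ^ 2) ≤ ‖th1 (bump m χ δ) mu 1‖

/-- Bessel's inequality for composed kernels, outer variable in a subset -/
def T_BE2 : Prop := ∀ (X : Type) [MeasurableSpace X] (ν : Measure X) [SFinite ν] (ι : Type)
  [Fintype ι] [DecidableEq ι] (f : ι → X → ℂ) (K : X → X → ℂ) (P : X → X → ENNReal)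
  (S : Set X), MeasurableSet S → (∀ i, Measurable (f i)) →
  (∀ i j, Integrable (fun x => f i x * (starRingEnd ℂ) (f j x)) ν) →
  (∀ i j, ∫ x, f i x * (starRingEnd ℂ) (f j x) ∂ν = if i = j then 1 else 0) →
  Measurable (Function.uncurry K) → Measurable (Function.uncurry P) →
  (∀ x y, ENNReal.ofReal ‖K x y‖ ≤ P x y) →
    ∑ i, ∫⁻ x in S, ENNReal.ofReal (‖∫ y, K x y * (∫ z, K y z * f i z ∂ν) ∂ν‖ ^ 2) ∂ν ≤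
      ∫⁻ x in S, ∫⁻ z, (∫⁻ y, P x y * P y z ∂ν) ^ 2 ∂ν ∂ν

/-- the Hilbert-Schmidt bound for an orthonormal family, outer variable in a subset -/
def T_HSZ : Prop := ∀ (m q : ℕ) [NeZero q] (T : ℕ → Finset (ZM m)) (D : Set (V m)),
  SysZ m q T D → ∀ (ι : Type) [Fintype ι] [DecidableEq ι] (F : ι → Mat m → RM m q → ℂ)
    (lam : ι → ℕ → ℂ) (mu : ι → Fin m → ℂ), (∀ i, EigZ m q T (F i) (lam i) (mu i)) →
  Orthn D F → ∀ (χ : ℝ → ℝ) (δ : ℝ), Prof χ → 0 < δ → δ ≤ 1 / 2 → ∀ (y : ℝ) (S : Set (V m)),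
  S ⊆ D → MeasurableSet S →
    ∑ i, ∑ x, ∫⁻ g in S, ENNReal.ofReal (‖opCz q (bump m χ δ) y D
      (opCz q (bump m χ δ) y D (F i)) (mt g) x‖ ^ 2) ∂(hm m) ≤
      ∫⁻ g in S, Ez q D y (mt g) ∂(hm m)

/-- the fourth moment of the sums of the eigenvalues -/
def T_D4Z : Prop := ∀ (m : ℕ) (χ : ℝ → ℝ), 1 ≤ m → Prof χ → ∃ (c C : ℝ) (A K : ℕ), 0 < c ∧
  0 < C ∧ ∀ (q : ℕ) [NeZero q] (T : ℕ → Finset (ZM m)) (D : Set (V m)), SysZ m q T D →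
  ∀ (ι : Type) [Fintype ι] [DecidableEq ι] (F : ι → Mat m → RM m q → ℂ)
    (lam : ι → ℕ → ℂ) (mu : ι → Fin m → ℂ), (∀ i, CuspZ m q T (F i) (lam i) (mu i)) →
  Orthn D F → ∀ δ : ℝ, 0 < δ → δ ≤ 1 / 2 → (∀ i, δ * (1 + ∑ j, ‖mu i j‖) ≤ c) →
  ∀ y : ℝ, 1 ≤ y →
    ∑ i, ‖DF m q (lam i) y‖ ^ 4 ≤ (C * δ⁻¹ ^ A * (q : ℝ) ^ (m ^ 2) *
      (1 + Real.log (q * δ⁻¹)) ^ K) * (1 + Real.log y) ^ K * y ^ (2 * m) *
        (1 + y ^ 2 / (q : ℝ) ^ m) ^ m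

/-! ### section 5 -/

/-- the bump functions under small changes of the variable -/
def T_LPB : Prop := ∀ (m : ℕ) (χ : ℝ → ℝ) (B : ℝ), 1 ≤ m → Prof χ → 0 < B → ∃ C : ℝ, 1 ≤ C ∧
  ∀ δ : ℝ, 0 < δ → δ ≤ 1 / 2 → ∀ (z c : Mat m) (τ : ℝ), c.det = 1 → 0 ≤ τ → τ ≤ 1 →
  sz (c - 1) ≤ B * τ →
    ‖bump m χ δ z - bump m χ δ (z * c)‖ ≤ C * δ⁻¹ * τ ∧
    (bump m χ δ z ≠ 0 ∨ bump m χ δ (z * c) ≠ 0 → sz z ≤ C ∧ C⁻¹ ≤ |z.det|)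

/-- conjugates of the unipotent matrices -/
def T_CUB : Prop := ∀ m : ℕ, ∃ C : ℝ, 0 < C ∧ ∀ (q : ℕ) (b n : Mat m) (a : Fin m → ℝ) (k : Mat m),
  Sgl b n a k → ∀ i j : Fin m, (i : ℕ) + 1 = j → ∀ u ∈ Set.Icc (0 : V m) 1,
    (1 + (q : ℝ) • nk j u) * b = b * (b⁻¹ * (1 + (q : ℝ) • nk j u) * b) ∧
    (b⁻¹ * (1 + (q : ℝ) • nk j u) * b).det = 1 ∧
    sz (b⁻¹ * (1 + (q : ℝ) • nk j u) * b - 1) ≤ C * (q * a i / a j)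

/-- a cusp form is small where a gap is large -/
def T_OST : Prop := ∀ (m : ℕ) (χ : ℝ → ℝ), 1 ≤ m → Prof χ → ∃ (c C : ℝ) (A : ℕ), 0 < c ∧
  1 ≤ C ∧ ∀ (q : ℕ) [NeZero q] (T : ℕ → Finset (ZM m)) (F : Mat m → RM m q → ℂ) (lam : ℕ → ℂ)
    (mu : Fin m → ℂ), 1 ≤ q → CuspZ m q T F lam mu → ∀ δ : ℝ, 0 < δ → δ ≤ 1 / 2 →
  δ * (1 + ∑ j, ‖mu j‖) ≤ c → ∀ (b n : Mat m) (a : Fin m → ℝ) (k : Mat m), Sgl b n a k →
  ∀ i j : Fin m, (i : ℕ) + 1 = j → (q : ℝ) * a i ≤ a j → ∀ x : RM m q,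
    ENNReal.ofReal ‖F b x‖ ≤ ENNReal.ofReal (C * δ⁻¹ ^ A * (q * a i / a j)) *
      ∫⁻ z in Zc m C, ENNReal.ofReal ‖F (b * (mt z)⁻¹) x‖ ∂(hm m)

/-- half of the mass of a cusp form is in `DY` -/
def T_MSS : Prop := ∀ (m : ℕ) (χ : ℝ → ℝ), 1 ≤ m → Prof χ → ∃ (c C : ℝ) (A : ℕ), 0 < c ∧
  1 ≤ C ∧ ∀ (q : ℕ) [NeZero q] (T : ℕ → Finset (ZM m)) (D : Set (V m)), SysZ m q T D →
  ∀ (F : Mat m → RM m q → ℂ) (lam : ℕ → ℂ) (mu : Fin m → ℂ), CuspZ m q T F lam mu →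
  ∑ x, ∫⁻ z in D, ENNReal.ofReal (‖F (mt z) x‖ ^ 2) ∂(hm m) = 1 →
  ∀ δ : ℝ, 0 < δ → δ ≤ 1 / 2 → δ * (1 + ∑ j, ‖mu j‖) ≤ c →
  ∀ Y : ℝ, C * q * δ⁻¹ ^ A ≤ Y →
    1 / 2 ≤ ∑ x, ∫⁻ z in DY D Y, ENNReal.ofReal (‖F (mt z) x‖ ^ 2) ∂(hm m)

end Pool.Agent.H27.L1.H34.GZ
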